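import Mathlib

open scoped commutatorElement

namespace Pool.Agent.Results.MP_fbf3cb_al.Full

universe u

/-- groups of exponent dividing three and class at most two -/
structure Good (G : Type u) [Group G] : Prop where
  h3 : ∀ x : G, x * x * x = 1
  hc : ∀ x y z : G, ⁅x, y⁆ * z = z * ⁅x, y⁆

section
variable {G : Type u} [Group G]

lemma Good.cl (h : Good G) (x y z : G) : ⁅x * y, z⁆ = ⁅x, z⁆ * ⁅y, z⁆ := by
  have e : ⁅x * y, z⁆ = x * ⁅y, z⁆ * x⁻¹ * ⁅x, z⁆ := by
    simp only [commutatorElement_def]; group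
  rw [e, ← h.hc y z x, h.hc x z]; group

lemma Good.cr (h : Good G) (x y z : G) : ⁅x, y * z⁆ = ⁅x, y⁆ * ⁅x, z⁆ := by
  have e : ⁅x, y * z⁆ = ⁅x, y⁆ * (y * ⁅x, z⁆ * y⁻¹) := by
    simp only [commutatorElement_def]; group
  rw [e, ← h.hc x z y]; group

lemma Good.cen (h : Good G) {w : G} (hw : w ∈ commutator G) (z : G) : w * z = z * w := by
  have : commutator G ≤ Subgroup.center G := by
    rw [commutator_def, Subgroup.commutator_le]
    intro a _ b _
    rw [Subgroup.mem_center_iff]
    intro g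
    exact (h.hc a b g).symm
  exact (Subgroup.mem_center_iff.1 (this hw) z).symm

lemma cmem (x y : G) : ⁅x, y⁆ ∈ commutator G :=
  Subgroup.commutator_mem_commutator (Subgroup.mem_top _) (Subgroup.mem_top _)

lemma Good.czl (h : Good G) {w : G} (hw : w ∈ commutator G) (z : G) : ⁅w, z⁆ = 1 := by
  rw [commutatorElement_def, h.cen hw z]; group

lemma Good.czr (h : Good G) {w : G} (hw : w ∈ commutator G) (z : G) : ⁅z, w⁆ = 1 := by
  rw [commutatorElement_def, ← h.cen hw z]; group

/-- the Baer abelian group -/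
@[ext] structure B (h : Good G) where
  val : G

instance (h : Good G) : Add (B h) := ⟨fun a b => ⟨a.val * b.val * ⁅a.val, b.val⁆⟩⟩
instance (h : Good G) : Zero (B h) := ⟨⟨1⟩⟩
instance (h : Good G) : Neg (B h) := ⟨fun a => ⟨a.val⁻¹⟩⟩

instance (h : Good G) : AddCommGroup (B h) where
  nsmul := nsmulRec
  zsmul := zsmulRec
  add_assoc a b c := by
    apply B.ext
    show a.val * b.val * ⁅a.val, b.val⁆ * c.val * ⁅a.val * b.val * ⁅a.val, b.val⁆, c.val⁆ =
      a.val * (b.val * c.val * ⁅b.val, c.val⁆) * ⁅a.val, b.val * c.val * ⁅b.val, c.val⁆⁆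
    rw [h.cl, h.cl, h.cr, h.cr, h.czl (cmem _ _), h.czr (cmem _ _)]
    have e1 := h.hc a.val b.val c.val
    have e2 := h.hc b.val c.val (⁅a.val, b.val⁆ * ⁅a.val, c.val⁆)
    calc _ = a.val * b.val * (⁅a.val, b.val⁆ * c.val) * ⁅a.val, c.val⁆ * ⁅b.val, c.val⁆ := by
          simp only [mul_assoc, mul_one]
      _ = a.val * b.val * c.val * ((⁅a.val, b.val⁆ * ⁅a.val, c.val⁆) * ⁅b.val, c.val⁆) := by
          rw [e1]; simp only [mul_assoc]
      _ = _ := by rw [← e2]; simp only [mul_assoc, mul_one]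
  zero_add a := by
    apply B.ext
    show 1 * a.val * ⁅(1 : G), a.val⁆ = a.val
    simp
  add_zero a := by
    apply B.ext
    show a.val * 1 * ⁅a.val, (1 : G)⁆ = a.val
    simp
  neg_add_cancel a := by
    apply B.ext
    show a.val⁻¹ * a.val * ⁅a.val⁻¹, a.val⁆ = 1
    simp [commutatorElement_def]
  add_comm a b := by
    apply B.ext
    show a.val * b.val * ⁅a.val, b.val⁆ = b.val * a.val * ⁅b.val, a.val⁆
    have e1 : a.val * b.val = ⁅a.val, b.val⁆ * (b.val * a.val) := by
      simp only [commutatorElement_def]; group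
    have e2 : ⁅b.val, a.val⁆ = ⁅a.val, b.val⁆ * ⁅a.val, b.val⁆ := by
      have := h.h3 ⁅a.val, b.val⁆
      rw [← commutatorElement_inv]
      exact (eq_inv_of_mul_eq_one_left this).symm
    rw [e2, e1, h.hc a.val b.val (b.val * a.val)]
    simp only [mul_assoc]

lemma B.add_val (h : Good G) (a b : B h) :
    (a + b).val = a.val * b.val * ⁅a.val, b.val⁆ := rfl

lemma B.three (h : Good G) (a : B h) : (3 : ℕ) • a = 0 := by
  have : (3 : ℕ) • a = a + a + a := by
    rw [show (3 : ℕ) = 2 + 1 from rfl, succ_nsmul, two_nsmul]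
  rw [this]
  apply B.ext
  rw [B.add_val, B.add_val]
  show _ = (1 : G)
  have := h.h3 a.val
  simp only [commutatorElement_def]
  rw [← this]; simp [mul_assoc]

/-- the derived subgroup inside the Baer group -/
def W (h : Good G) : AddSubgroup (B h) where
  carrier := {a | a.val ∈ commutator G}
  add_mem' := by
    intro a b ha hb
    show (a + b).val ∈ commutator G
    rw [B.add_val]
    exact mul_mem (mul_mem ha hb) (cmem _ _)
  zero_mem' := (commutator G).one_mem
  neg_mem' := by
    intro a ha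
    exact (commutator G).inv_mem ha

lemma exists_P (h : Good G) : ∃ P : G → G, (∀ g, P g ∈ commutator G) ∧
    (∀ w ∈ commutator G, P w = w) ∧ ∀ a b, P (a * b * ⁅a, b⁆) = P a * P b := by
  have : Fact (Nat.Prime 3) := ⟨Nat.prime_three⟩
  let _ : Module (ZMod 3) (B h) := AddCommGroup.zmodModule (B.three h)
  let V : Submodule (ZMod 3) (B h) := AddSubgroup.toZModSubmodule 3 (W h)
  obtain ⟨π, hπ⟩ := LinearMap.exists_leftInverse_of_injective V.subtype (Submodule.ker_subtype V)
  refine ⟨fun g => (π ⟨g⟩).1.val, fun g => (π ⟨g⟩).2, ?_, ?_⟩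
  · intro w hw
    have := LinearMap.congr_fun hπ (⟨⟨w⟩, hw⟩ : V)
    have h2 : π ⟨w⟩ = (⟨⟨w⟩, hw⟩ : V) := this
    show (π ⟨w⟩).1.val = w
    rw [h2]
  · intro a b
    have e : (⟨a * b * ⁅a, b⁆⟩ : B h) = ⟨a⟩ + ⟨b⟩ := rfl
    show (π ⟨a * b * ⁅a, b⁆⟩).1.val = (π ⟨a⟩).1.val * (π ⟨b⟩).1.val
    rw [e, map_add, Submodule.coe_add, B.add_val, h.czl (π ⟨a⟩).2, mul_one]

lemma exists_aut (h : Good G) : ∃ α : MulAut G, ∀ g, ∃ w ∈ commutator G, α g = g⁻¹ * w := by
  obtain ⟨P, hP1, hP2, hP3⟩ := exists_P h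
  have hw : ∀ a, ∀ w ∈ commutator G, P (a * w) = P a * w := by
    intro a w hw
    have := hP3 a w
    rwa [h.czr hw, mul_one, hP2 w hw] at this
  have hm : ∀ a b, P (a * b) * ⁅a, b⁆ = P a * P b := by
    intro a b
    rw [← hw _ _ (cmem a b), hP3]
  have hi : ∀ a, P a⁻¹ = (P a)⁻¹ := by
    intro a
    have := hm a⁻¹ a
    rw [inv_mul_cancel, hP2 1 (commutator G).one_mem] at this
    have e : ⁅a⁻¹, a⁆ = 1 := by simp [commutatorElement_def]
    rw [e, one_mul] at this
    exact eq_inv_of_mul_eq_one_left this.symm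
  let f : G → G := fun g => g⁻¹ * (P g)⁻¹
  have hf : ∀ a b, f (a * b) = f a * f b := by
    intro a b
    show (a * b)⁻¹ * (P (a * b))⁻¹ = a⁻¹ * (P a)⁻¹ * (b⁻¹ * (P b)⁻¹)
    have e1 : P (a * b) = P a * P b * ⁅a, b⁆⁻¹ := by rw [← hm]; group
    have e2 := h.cen ((commutator G).inv_mem (hP1 a)) (b⁻¹ * (P b)⁻¹)
    rw [e1, mul_assoc a⁻¹, e2]
    simp only [commutatorElement_def]; group
  have hinv : ∀ a, f (f a) = a := by
    intro a
    show (a⁻¹ * (P a)⁻¹)⁻¹ * (P (a⁻¹ * (P a)⁻¹))⁻¹ = a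
    rw [hw _ _ ((commutator G).inv_mem (hP1 a)), hi]
    have e2 := h.cen (hP1 a) a
    have e3 := h.h3 (P a)
    calc _ = (P a * a) * P a * P a := by simp [mul_assoc]
      _ = a * (P a * P a * P a) := by rw [e2]; simp [mul_assoc]
      _ = a := by rw [e3, mul_one]
  exact ⟨⟨⟨f, f, hinv, hinv⟩, hf⟩, fun g => ⟨(P g)⁻¹, (commutator G).inv_mem (hP1 g), rfl⟩⟩

lemma integrable (h : Good G) :
    ∃ (H : Type u) (_ : Group H), Nonempty (commutator H ≃* G) := by
  obtain ⟨α, hα⟩ := exists_aut h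
  let φ : Multiplicative ℤ →* MulAut G := zpowersHom (MulAut G) α
  let H := G ⋊[φ] Multiplicative ℤ
  have key : commutator H = (SemidirectProduct.inl : G →* H).range := by
    apply le_antisymm
    · rw [SemidirectProduct.range_inl_eq_ker_rightHom, commutator_def, Subgroup.commutator_le]
      intro a _ b _
      rw [MonoidHom.mem_ker, map_commutatorElement, commutatorElement_eq_one_iff_mul_comm, mul_comm]
    · rintro _ ⟨g, rfl⟩
      have hin : ∀ w ∈ commutator G, (SemidirectProduct.inl w : H) ∈ commutator H := by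
        intro w hw
        have : (commutator G).map (SemidirectProduct.inl : G →* H) ≤ commutator H := by
          rw [commutator_def, Subgroup.map_commutator]
          exact Subgroup.commutator_mono le_top le_top
        exact this ⟨w, hw, rfl⟩
      obtain ⟨w, hw, hg⟩ := hα g
      have e : (SemidirectProduct.inl (α g * g⁻¹) : H) =
          ⁅(SemidirectProduct.inr (Multiplicative.ofAdd (1 : ℤ)) : H), SemidirectProduct.inl g⁆ := by
        have : α g = φ (Multiplicative.ofAdd (1 : ℤ)) g := by simp [φ]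
        rw [map_mul, this, SemidirectProduct.inl_aut, commutatorElement_def, map_inv, map_inv]
      have e2 : g = (α g * g⁻¹) * w⁻¹ := by
        have e3 := h.h3 g
        have e4 := h.cen hw g⁻¹
        rw [hg, mul_assoc g⁻¹, e4]
        calc g = g * (g * g * g)⁻¹ := by rw [e3]; group
          _ = _ := by group
      rw [e2, map_mul, e]
      exact mul_mem (cmem _ _) (hin _ ((commutator G).inv_mem hw))
  exact ⟨H, inferInstance, ⟨(MulEquiv.subgroupCongr key).trans
    (MonoidHom.ofInjective SemidirectProduct.inl_injective).symm⟩⟩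

end

/-- the Heisenberg group of order 27 -/
@[ext] structure Heis where
  a : ZMod 3
  b : ZMod 3
  c : ZMod 3

instance : Mul Heis := ⟨fun x y => ⟨x.a + y.a, x.b + y.b, x.c + y.c + x.a * y.b⟩⟩
instance : One Heis := ⟨⟨0, 0, 0⟩⟩
instance : Inv Heis := ⟨fun x => ⟨-x.a, -x.b, -x.c + x.a * x.b⟩⟩

@[simp] lemma mul_a (x y : Heis) : (x * y).a = x.a + y.a := rfl
@[simp] lemma mul_b (x y : Heis) : (x * y).b = x.b + y.b := rfl
@[simp] lemma mul_c (x y : Heis) : (x * y).c = x.c + y.c + x.a * y.b := rfl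
@[simp] lemma one_a : (1 : Heis).a = 0 := rfl
@[simp] lemma one_b : (1 : Heis).b = 0 := rfl
@[simp] lemma one_c : (1 : Heis).c = 0 := rfl
@[simp] lemma inv_a (x : Heis) : x⁻¹.a = -x.a := rfl
@[simp] lemma inv_b (x : Heis) : x⁻¹.b = -x.b := rfl
@[simp] lemma inv_c (x : Heis) : x⁻¹.c = -x.c + x.a * x.b := rfl

instance : Group Heis := Group.ofLeftAxioms
  (fun x y z => by ext <;> simp <;> ring)
  (fun x => by ext <;> simp)
  (fun x => by ext <;> simp)

lemma heis_good : Good Heis where
  h3 x := by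
    have h : (3 : ZMod 3) = 0 := rfl
    ext
    · simp only [mul_a, one_a]; linear_combination x.a * h
    · simp only [mul_b, one_b]; linear_combination x.b * h
    · simp only [mul_a, mul_c, one_c]; linear_combination (x.c + x.a * x.b) * h
  hc x y z := by
    ext <;> simp [commutatorElement_def] <;> ring

/-- `G` satisfies every law `w = 1` with `w ∈ L`. -/
def Satisfies (L : Set (FreeGroup ℕ)) (G : Type u) [Group G] : Prop :=
  ∀ w ∈ L, ∀ f : ℕ → G, FreeGroup.lift f w = 1

/-- the laws `x^3 = 1` and `[[x,y],z] = 1` -/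
def laws : Set (FreeGroup ℕ) :=
  {FreeGroup.of 0 ^ 3, ⁅⁅FreeGroup.of 0, FreeGroup.of 1⁆, FreeGroup.of 2⁆}

lemma sat_iff (G : Type u) [Group G] : Satisfies laws G ↔ Good G := by
  constructor
  · intro h
    constructor
    · intro x
      have := h _ (Or.inl rfl) (fun _ => x)
      simpa [pow_succ] using this
    · intro x y z
      have := h _ (Or.inr rfl) (fun n => if n = 0 then x else if n = 1 then y else z)
      rw [map_commutatorElement, map_commutatorElement] at this
      simp only [FreeGroup.lift_apply_of] at this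
      exact commutatorElement_eq_one_iff_mul_comm.1 (by simpa using this)
  · rintro h w (rfl | rfl) f
    · simpa [pow_succ] using h.h3 (f 0)
    · rw [map_commutatorElement, map_commutatorElement]
      exact h.czl (cmem _ _) _

theorem result : ∃ L : Set (FreeGroup ℕ),
    (∃ (K : Type) (_ : Group K), Satisfies L K ∧ ∃ a b : K, a * b ≠ b * a) ∧
    ∀ (G : Type u) [Group G], Satisfies L G →
      ∃ (H : Type u) (_ : Group H), Nonempty (commutator H ≃* G) := by
  refine ⟨laws, ⟨Heis, inferInstance, (sat_iff _).2 heis_good, ⟨1, 0, 0⟩, ⟨0, 1, 0⟩, ?_⟩,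
    fun G _ h => integrable ((sat_iff G).1 h)⟩
  intro h
  have := congrArg Heis.c h
  simp at this

end Pool.Agent.Results.MP_fbf3cb_al.Full
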